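import Pool.Agent.W181.WH.Stm

/-!
Project WH, task IWA1: the Iwasawa coordinates.
-/

set_option autoImplicit false

open Matrix

namespace Pool.Agent.W462.WH

open Pool.Agent.W181.WH

/-- the `i`-th diagonal entry of `dMat y`, for all natural `i` -/
noncomputable def dN {N : ℕ} (y : Fin N → ℝ) (i : ℕ) : ℝ :=
  ∏ j : Fin N, if (j : ℕ) + i < N then y j else 1

theorem dMat_eq {N : ℕ} (y : Fin N → ℝ) :
    dMat y = Matrix.diagonal (fun i : Fin (N + 1) => dN y i) := rfl

theorem dN_last {N : ℕ} (y : Fin N → ℝ) : dN y N = 1 := by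
  unfold dN
  refine Finset.prod_eq_one fun j _ => ?_
  rw [if_neg (by omega)]

theorem dN_pos {N : ℕ} {y : Fin N → ℝ} (hy : ∀ j, 0 < y j) (i : ℕ) : 0 < dN y i := by
  unfold dN
  refine Finset.prod_pos fun j _ => ?_
  split_ifs
  · exact hy j
  · exact one_pos

theorem dN_succ {N : ℕ} (y : Fin N → ℝ) (k : ℕ) (hk : k < N) :
    dN y k = y ⟨N - 1 - k, by omega⟩ * dN y (k + 1) := by
  unfold dN
  have h1 : y ⟨N - 1 - k, by omega⟩ =
      ∏ j : Fin N, if j = ⟨N - 1 - k, by omega⟩ then y j else 1 := by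
    rw [Finset.prod_ite_eq' Finset.univ (⟨N - 1 - k, by omega⟩ : Fin N) y]
    simp
  rw [h1, ← Finset.prod_mul_distrib]
  refine Finset.prod_congr rfl fun j _ => ?_
  by_cases hj : j = ⟨N - 1 - k, by omega⟩
  · have hj' : (j : ℕ) = N - 1 - k := by rw [hj]
    rw [if_pos (by omega), if_pos hj, if_neg (by omega), mul_one]
  · have hj' : (j : ℕ) ≠ N - 1 - k := fun h => hj (Fin.ext h)
    rw [if_neg hj, one_mul]
    by_cases h2 : (j : ℕ) + (k + 1) < N
    · rw [if_pos h2, if_pos (by omega)]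
    · rw [if_neg h2, if_neg (by omega)]

/-- transposed coordinates -/
def swp {n : ℕ} (x : UIdx n → ℝ) : LIdx n → ℝ := fun p => x ⟨(p.1.2, p.1.1), p.2⟩

def swp' {n : ℕ} (v : LIdx n → ℝ) : UIdx n → ℝ := fun p => v ⟨(p.1.2, p.1.1), p.2⟩

theorem lM_swp {n : ℕ} (x : UIdx n → ℝ) : (lM (swp x))ᵀ = uMat x := by
  ext i j
  rw [Matrix.transpose_apply]
  unfold lM uMat swp
  by_cases h : i < j
  · rw [dif_pos h, dif_pos h]
  · rw [dif_neg h, dif_neg h]
    by_cases h2 : i = j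
    · rw [if_pos h2, if_pos h2.symm]
    · rw [if_neg h2, if_neg (Ne.symm h2)]

theorem uMat_swp' {n : ℕ} (v : LIdx n → ℝ) : uMat (swp' v) = (lM v)ᵀ := by
  rw [← lM_swp]
  rfl

theorem gram {N : ℕ} {g : Matrix (Fin (N + 1)) (Fin (N + 1)) ℝ} {y : Fin N → ℝ}
    {x : UIdx (N + 1) → ℝ} {k : Matrix (Fin (N + 1)) (Fin (N + 1)) ℝ}
    (hk : k ∈ Matrix.orthogonalGroup (Fin (N + 1)) ℝ) {r : ℝ}
    (hg : g = r • (uMat x * dMat y * k)) :
    g * gᵀ = ML (fun i : Fin (N + 1) => r * dN y i, swp x) := by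
  rw [Matrix.mem_orthogonalGroup_iff] at hk
  unfold ML
  simp only
  have e1 : (lM (swp x)) = (uMat x)ᵀ := by
    rw [← lM_swp, Matrix.transpose_transpose]
  have e2 : Matrix.diagonal (fun i : Fin (N + 1) => (r * dN y i) ^ 2) =
      (r * r) • (dMat y * dMat y) := by
    rw [dMat_eq, Matrix.diagonal_mul_diagonal, ← Matrix.diagonal_smul]
    congr 1
    funext i
    simp only [Pi.smul_apply, smul_eq_mul]
    ring
  have e3 : (dMat y)ᵀ = dMat y := by rw [dMat_eq, Matrix.diagonal_transpose]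
  rw [e1, Matrix.transpose_transpose, e2, hg, Matrix.transpose_smul, Matrix.transpose_mul,
    Matrix.transpose_mul, e3, Matrix.smul_mul, Matrix.mul_smul, smul_smul, Matrix.mul_smul,
    Matrix.smul_mul]
  congr 1
  calc uMat x * dMat y * k * (kᵀ * (dMat y * (uMat x)ᵀ)) =
      uMat x * dMat y * (k * kᵀ) * (dMat y * (uMat x)ᵀ) := by simp only [Matrix.mul_assoc]
    _ = uMat x * (dMat y * dMat y) * (uMat x)ᵀ := by
      rw [hk, Matrix.mul_one]; simp only [Matrix.mul_assoc]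

theorem minors (hC : S_CHOL) {N : ℕ} {g : Matrix (Fin (N + 1)) (Fin (N + 1)) ℝ} {y : Fin N → ℝ}
    {x : UIdx (N + 1) → ℝ} {k : Matrix (Fin (N + 1)) (Fin (N + 1)) ℝ}
    (hk : k ∈ Matrix.orthogonalGroup (Fin (N + 1)) ℝ) {r : ℝ}
    (hg : g = r • (uMat x * dMat y * k)) (i : Fin (N + 1)) :
    Bm (g * gᵀ) i = ∏ j ∈ Finset.Ici i, (r * dN y j) ^ 2 := by
  rw [gram hk hg]
  exact ((hC (N + 1)).2.2 _ i).1

theorem exists_iwasawa (hC : S_CHOL) {N : ℕ} {g : Matrix (Fin (N + 1)) (Fin (N + 1)) ℝ}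
    (hg : IsUnit g.det) : ∃ y, IsIwasawa g y := by
  have hdet0 : g.det ≠ 0 := hg.ne_zero
  have hpd : (g * gᵀ).PosDef := by
    have h := Matrix.PosDef.mul_conjTranspose_self g (by
      rw [Matrix.vecMul_injective_iff_isUnit, Matrix.isUnit_iff_isUnit_det]
      exact hg)
    rwa [Matrix.conjTranspose_eq_transpose_of_trivial] at h
  obtain ⟨⟨t, v⟩, ht, hP⟩ := (hC (N + 1)).1 _ hpd
  simp only at ht
  set X : Matrix (Fin (N + 1)) (Fin (N + 1)) ℝ := (lM v)ᵀ with hX
  have hP' : g * gᵀ = X * Matrix.diagonal (fun i => t i ^ 2) * Xᵀ := by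
    rw [hP, hX, Matrix.transpose_transpose]
    rfl
  have hXu : IsUnit X.det := by
    rw [isUnit_iff_ne_zero]
    intro h0
    have h1 := congrArg Matrix.det hP'
    rw [Matrix.det_mul, Matrix.det_mul, Matrix.det_mul, h0, zero_mul, zero_mul,
      Matrix.det_transpose] at h1
    exact hdet0 (mul_self_eq_zero.1 h1)
  set y : Fin N → ℝ := fun j => t ⟨N - 1 - j, by omega⟩ / t ⟨N - j, by omega⟩ with hy
  have hypos : ∀ j, 0 < y j := fun j => div_pos (ht _) (ht _)
  set r : ℝ := t ⟨N, by omega⟩ with hr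
  have hd : ∀ n i : ℕ, ∀ (h : i + n = N), r * dN y i = t ⟨i, by omega⟩ := by
    intro n
    induction n with
    | zero =>
      intro i h
      have h' : i = N := by omega
      subst h'
      rw [dN_last, mul_one]
    | succ n ih =>
      intro i h
      have h1 := ih (i + 1) (by omega)
      rw [dN_succ y i (by omega)]
      have e2 : y ⟨N - 1 - i, by omega⟩ = t ⟨i, by omega⟩ / t ⟨i + 1, by omega⟩ := by
        rw [hy]
        simp only
        congr 2
        · apply Fin.ext; simp only; omega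
        · apply Fin.ext; simp only; omega
      rw [e2]
      have h3 := ht ⟨i + 1, by omega⟩
      calc r * (t ⟨i, by omega⟩ / t ⟨i + 1, by omega⟩ * dN y (i + 1)) =
          t ⟨i, by omega⟩ / t ⟨i + 1, by omega⟩ * (r * dN y (i + 1)) := by ring
        _ = _ := by rw [h1]; field_simp
  have hd' : ∀ i : Fin (N + 1), r * dN y i = t i := by
    intro i
    exact hd (N - i) i (by omega)
  have hdiag : r • dMat y = Matrix.diagonal t := by
    rw [dMat_eq, ← Matrix.diagonal_smul]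
    congr 1
    funext i
    exact hd' i
  have hXX : X * X⁻¹ = 1 := Matrix.mul_nonsing_inv X hXu
  have hXX' : X⁻¹ * X = 1 := Matrix.nonsing_inv_mul X hXu
  have htt : Matrix.diagonal t * Matrix.diagonal (fun i => (t i)⁻¹) = 1 := by
    rw [Matrix.diagonal_mul_diagonal, ← Matrix.diagonal_one]
    congr 1
    funext i
    exact mul_inv_cancel₀ (ht i).ne'
  have htt' : Matrix.diagonal (fun i => (t i)⁻¹) * Matrix.diagonal t = 1 := by
    rw [Matrix.diagonal_mul_diagonal, ← Matrix.diagonal_one]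
    congr 1
    funext i
    exact inv_mul_cancel₀ (ht i).ne'
  set Di : Matrix (Fin (N + 1)) (Fin (N + 1)) ℝ := Matrix.diagonal (fun i => (t i)⁻¹) with hDi
  set Dt : Matrix (Fin (N + 1)) (Fin (N + 1)) ℝ := Matrix.diagonal t with hDt
  have hDiT : Diᵀ = Di := by rw [hDi, Matrix.diagonal_transpose]
  have hsq : Matrix.diagonal (fun i => t i ^ 2) = Dt * Dt := by
    rw [hDt, Matrix.diagonal_mul_diagonal]
    congr 1
    funext i
    ring
  refine ⟨y, hypos, swp' v, Di * X⁻¹ * g, ?_, r, (ht _).ne', ?_⟩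
  · rw [Matrix.mem_orthogonalGroup_iff, Matrix.transpose_mul, Matrix.transpose_mul, hDiT]
    have hXT : Xᵀ * (X⁻¹)ᵀ = 1 := by
      rw [← Matrix.transpose_mul, hXX', Matrix.transpose_one]
    calc Di * X⁻¹ * g * (gᵀ * ((X⁻¹)ᵀ * Di)) = Di * X⁻¹ * (g * gᵀ) * ((X⁻¹)ᵀ * Di) := by
          simp only [Matrix.mul_assoc]
      _ = Di * (X⁻¹ * X) * (Dt * Dt) * (Xᵀ * (X⁻¹)ᵀ) * Di := by
          rw [hP', hsq]; simp only [Matrix.mul_assoc]
      _ = (Di * Dt) * (Dt * Di) := by
          rw [hXX', hXT, Matrix.mul_one, Matrix.mul_one]; simp only [Matrix.mul_assoc]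
      _ = 1 := by rw [htt, htt', Matrix.mul_one]
  · rw [uMat_swp', ← hX]
    calc g = X * X⁻¹ * g := by rw [hXX, Matrix.one_mul]
      _ = X * (Dt * Di) * X⁻¹ * g := by rw [htt, Matrix.mul_one]
      _ = X * (r • dMat y) * (Di * X⁻¹ * g) := by rw [hdiag]; simp only [Matrix.mul_assoc]
      _ = r • (X * dMat y * (Di * X⁻¹ * g)) := by
          rw [Matrix.mul_smul, Matrix.smul_mul]

theorem sum_Ici {N : ℕ} (f : ℕ → ℝ) (i : Fin (N + 1)) :
    ∑ j ∈ Finset.Ici i, f j = ∑ j ∈ Finset.Ico (i : ℕ) (N + 1), f j := by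
  rw [← Fin.map_valEmbedding_Ici, Finset.sum_map]
  rfl

theorem log_Bm (hC : S_CHOL) {N : ℕ} {g : Matrix (Fin (N + 1)) (Fin (N + 1)) ℝ} {y : Fin N → ℝ}
    (hy : ∀ j, 0 < y j) {x : UIdx (N + 1) → ℝ} {k : Matrix (Fin (N + 1)) (Fin (N + 1)) ℝ}
    (hk : k ∈ Matrix.orthogonalGroup (Fin (N + 1)) ℝ) {r : ℝ} (hr : r ≠ 0)
    (hg : g = r • (uMat x * dMat y * k)) (i : Fin (N + 1)) :
    0 < Bm (g * gᵀ) i ∧
      Real.log (Bm (g * gᵀ) i) = 2 * ∑ j ∈ Finset.Ico (i : ℕ) (N + 1), Real.log (r * dN y j) := by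
  have hne : ∀ j : ℕ, r * dN y j ≠ 0 := fun j => mul_ne_zero hr (dN_pos hy j).ne'
  rw [minors hC hk hg i]
  constructor
  · refine Finset.prod_pos fun j _ => ?_
    have := hne j
    positivity
  · rw [Real.log_prod (s := Finset.Ici i) (f := fun j : Fin (N + 1) => (r * dN y j) ^ 2)
      (fun j _ => pow_ne_zero 2 (hne j)), ← sum_Ici, Finset.mul_sum]
    refine Finset.sum_congr rfl fun j _ => ?_
    rw [Real.log_pow]
    push_cast
    ring

theorem log_y {N : ℕ} {y : Fin N → ℝ} (hy : ∀ j, 0 < y j) {r : ℝ} (hr : r ≠ 0) (j : Fin N) :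
    Real.log (y j) = Real.log (r * dN y (N - 1 - j)) - Real.log (r * dN y (N - 1 - j + 1)) := by
  have hj := j.2
  have h1 := dN_succ y (N - 1 - j) (by omega)
  have e : (⟨N - 1 - (N - 1 - (j : ℕ)), by omega⟩ : Fin N) = j := by
    apply Fin.ext
    simp only
    omega
  rw [e] at h1
  rw [h1, mul_left_comm, Real.log_mul (hy j).ne' (mul_ne_zero hr (dN_pos hy _).ne')]
  ring

theorem iw_unique (hC : S_CHOL) {N : ℕ} {g : Matrix (Fin (N + 1)) (Fin (N + 1)) ℝ}
    {y y' : Fin N → ℝ} (h : IsIwasawa g y) (h' : IsIwasawa g y') : y = y' := by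
  obtain ⟨hy, x, k, hk, r, hr, hg⟩ := h
  obtain ⟨hy', x', k', hk', r', hr', hg'⟩ := h'
  have hl : ∀ i : ℕ, i ≤ N → Real.log (r * dN y i) = Real.log (r' * dN y' i) := by
    intro i hi
    have h1 := (log_Bm hC hy hk hr hg ⟨i, by omega⟩).2
    have h2 := (log_Bm hC hy' hk' hr' hg' ⟨i, by omega⟩).2
    rw [h2] at h1
    simp only at h1
    rw [Finset.sum_eq_sum_Ico_succ_bot (show i < N + 1 by omega) (fun j => Real.log (r * dN y j)),
      Finset.sum_eq_sum_Ico_succ_bot (show i < N + 1 by omega)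
        (fun j => Real.log (r' * dN y' j))] at h1
    rcases Nat.lt_or_ge i N with h3 | h3
    · have h4 := (log_Bm hC hy hk hr hg ⟨i + 1, by omega⟩).2
      have h5 := (log_Bm hC hy' hk' hr' hg' ⟨i + 1, by omega⟩).2
      rw [h5] at h4
      simp only at h4
      linarith
    · have h4 : i = N := by omega
      subst h4
      simp only [Finset.Ico_self, Finset.sum_empty, add_zero] at h1
      linarith
  funext j
  have hj := j.2
  apply Real.log_injOn_pos (hy j) (hy' j)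
  rw [log_y hy hr j, log_y hy' hr' j, hl _ (by omega), hl _ (by omega)]

theorem iwY_eq (hC : S_CHOL) {N : ℕ} {g : Matrix (Fin (N + 1)) (Fin (N + 1)) ℝ}
    {y : Fin N → ℝ} (h : IsIwasawa g y) : iwY g = y := by
  have hex : ∃ y, IsIwasawa g y := ⟨y, h⟩
  unfold iwY
  rw [dif_pos hex]
  exact iw_unique hC hex.choose_spec h

theorem cpow_pos {x : ℝ} (hx : 0 < x) (c : ℂ) : (x : ℂ) ^ c = Complex.exp ((Real.log x : ℂ) * c) := by
  rw [Complex.cpow_def_of_ne_zero (by exact_mod_cast hx.ne'), Complex.ofReal_log hx.le]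

theorem abel1 (L G : ℕ → ℂ) (n : ℕ) :
    ∑ k ∈ Finset.range n, (L k - L (k + 1)) * ∑ i ∈ Finset.range (k + 1), G i =
      ∑ i ∈ Finset.range n, L i * G i - L n * ∑ i ∈ Finset.range n, G i := by
  induction n with
  | zero => simp
  | succ n ih =>
    rw [Finset.sum_range_succ, ih, Finset.sum_range_succ (fun i => L i * G i),
      Finset.sum_range_succ G]
    ring

theorem abel2 (L G : ℕ → ℂ) (n : ℕ) :
    G 0 * ∑ i ∈ Finset.range (n + 1), L i -
      ∑ k ∈ Finset.range n, (G k - G (k + 1)) * ∑ i ∈ Finset.Ico (k + 1) (n + 1), L i =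
      ∑ i ∈ Finset.range (n + 1), L i * G i := by
  induction n with
  | zero => simp; ring
  | succ n ih =>
    have h1 : ∀ k ∈ Finset.range n, (G k - G (k + 1)) * ∑ i ∈ Finset.Ico (k + 1) (n + 1 + 1), L i =
        (G k - G (k + 1)) * ∑ i ∈ Finset.Ico (k + 1) (n + 1), L i + (G k - G (k + 1)) * L (n + 1) := by
      intro k hk
      rw [Finset.mem_range] at hk
      rw [Finset.sum_Ico_succ_top (by omega), mul_add]
    rw [Finset.sum_range_succ (fun k => (G k - G (k + 1)) *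
      ∑ i ∈ Finset.Ico (k + 1) (n + 1 + 1), L i), Finset.sum_congr rfl h1,
      Finset.sum_add_distrib, ← Finset.sum_mul, Finset.sum_range_sub' G n,
      Finset.sum_range_succ L, Finset.sum_range_succ (fun i => L i * G i), ← ih]
    simp
    ring

theorem sum_rho (N : ℕ) : ∑ i : Fin (N + 1), (((rhoI i : ℝ)) : ℂ) = 0 := by
  have h : ∀ n : ℕ, ∑ i ∈ Finset.range n, (i : ℝ) = (n : ℝ) * (n - 1) / 2 := by
    intro n
    induction n with
    | zero => simp
    | succ n ih => rw [Finset.sum_range_succ, ih]; push_cast; ring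
  have h1 : ∑ i : Fin (N + 1), rhoI i = 0 := by
    unfold rhoI
    rw [Finset.sum_sub_distrib, Fin.sum_univ_eq_sum_range (fun i : ℕ => (i : ℝ)), h]
    simp
    ring
  rw [← Complex.ofReal_sum, h1, Complex.ofReal_zero]

theorem t_iwa1 : S_CHOL → S_IWA1 := by
  intro hC N g hdet
  refine ⟨exists_iwasawa hC hdet, fun y y' h h' => iw_unique hC h h', ?_⟩
  intro α hα
  obtain ⟨y, hiw⟩ := exists_iwasawa hC hdet
  have hY := iwY_eq hC hiw
  obtain ⟨hy, x, k, hk, r, hr, hg⟩ := hiw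
  set L : ℕ → ℂ := fun i => ((Real.log (r * dN y i) : ℝ) : ℂ) with hL
  set G : ℕ → ℂ := fun i => if h : i < N + 1 then α ⟨i, h⟩ + ((rhoI (⟨i, h⟩ : Fin (N + 1)) : ℝ) : ℂ)
    else 0 with hG
  have hGi : ∀ i : Fin (N + 1), α i + ((rhoI i : ℝ) : ℂ) = G i := by
    intro i
    rw [hG]
    simp only
    rw [dif_pos i.2]
  have hGsum : ∑ i ∈ Finset.range (N + 1), G i = 0 := by
    rw [← Fin.sum_univ_eq_sum_range, ← Finset.sum_congr rfl fun i _ => hGi i,
      Finset.sum_add_distrib, hα, sum_rho, add_zero]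
  obtain ⟨F, hF⟩ : ∃ F : ℕ → ℂ, F = fun k : ℕ => (L k - L (k + 1)) *
      ∑ i ∈ Finset.range (k + 1), G i := ⟨_, rfl⟩
  -- left side
  have hleft : Ifun g α = Complex.exp (∑ i ∈ Finset.range (N + 1), L i * G i) := by
    unfold Ifun
    rw [hY]
    have e1 : ∀ j : Fin N, ((y j : ℝ) : ℂ) ^
        (∑ i : Fin (N + 1), if (i : ℕ) + (j : ℕ) < N then α i + ((rhoI i : ℝ) : ℂ) else 0) =
        Complex.exp (F (N - 1 - j)) := by
      intro j
      have hj := j.2
      rw [cpow_pos (hy j), log_y hy hr j, hF]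
      congr 1
      simp only
      congr 1
      · rw [hL]; push_cast; rfl
      · rw [Finset.sum_congr rfl fun i _ => by rw [hGi i],
          Fin.sum_univ_eq_sum_range (fun i : ℕ => if i + (j : ℕ) < N then G i else 0),
          ← Finset.sum_filter]
        congr 1
        ext i
        rw [Finset.mem_filter, Finset.mem_range, Finset.mem_range]
        omega
    rw [Finset.prod_congr rfl fun j _ => e1 j, ← Complex.exp_sum,
      Fin.sum_univ_eq_sum_range (fun j : ℕ => F (N - 1 - j)) N,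
      Finset.sum_range_reflect F N, hF, abel1]
    congr 1
    rw [Finset.sum_range_succ] at hGsum
    rw [Finset.sum_range_succ (fun i => L i * G i)]
    have e2 : G N = -∑ i ∈ Finset.range N, G i := by
      rw [eq_neg_iff_add_eq_zero, add_comm]; exact hGsum
    rw [e2]
    ring
  have hB := log_Bm hC hy hk hr hg
  have hB0 : ((Bm (g * gᵀ) 0 : ℝ) : ℂ) ^ ((α 0 + ((rhoI (0 : Fin (N + 1)) : ℝ) : ℂ)) / 2) =
      Complex.exp (G 0 * ∑ i ∈ Finset.range (N + 1), L i) := by
    rw [cpow_pos (hB 0).1, (hB 0).2, hGi 0]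
    congr 1
    have e3 : ((0 : Fin (N + 1)) : ℕ) = 0 := rfl
    rw [e3, ← Finset.range_eq_Ico, hL]
    push_cast
    ring
  have hBk : ∀ k : Fin N, ((Bm (g * gᵀ) k.succ : ℝ) : ℂ) ^ (-(muOf α k) / 2) =
      Complex.exp ((fun k : ℕ => -((G k - G (k + 1)) * ∑ i ∈ Finset.Ico (k + 1) (N + 1), L i)) k) := by
    intro k
    rw [cpow_pos (hB k.succ).1, (hB k.succ).2]
    congr 1
    have e4 : muOf α k = G k - G (k + 1) := by
      have a1 := hGi k.castSucc
      have a2 := hGi k.succ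
      have e5 : ((k.castSucc : Fin (N + 1)) : ℕ) = k := rfl
      have e6 : ((k.succ : Fin (N + 1)) : ℕ) = k + 1 := rfl
      rw [e5] at a1
      rw [e6] at a2
      rw [← a1, ← a2]
      unfold muOf rhoI
      rw [e5, e6]
      push_cast
      ring
    have e6 : ((k.succ : Fin (N + 1)) : ℕ) = k + 1 := rfl
    simp only
    rw [e4, e6, hL]
    push_cast
    ring
  rw [hleft, hB0, Finset.prod_congr rfl fun k _ => hBk k, ← Complex.exp_sum, ← Complex.exp_add,
    Fin.sum_univ_eq_sum_range (fun k : ℕ => -((G k - G (k + 1)) *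
      ∑ i ∈ Finset.Ico (k + 1) (N + 1), L i)) N, Finset.sum_neg_distrib, ← sub_eq_add_neg, abel2]

end Pool.Agent.W462.WH
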