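import Pool.Agent.W462.WH.IWA1

/-!
Project WH, task IWA2: the integrand of Jacquet's integral in the Iwasawa coordinates.
-/

set_option autoImplicit false

open Matrix MeasureTheory

namespace Pool.Agent.W462.WH

open Pool.Agent.W181.WH

/-- reversal of both indices -/
def revE (n : ℕ) : LIdx n ≃ UIdx n where
  toFun p := ⟨(Fin.rev p.1.1, Fin.rev p.1.2), Fin.rev_lt_rev.2 p.2⟩
  invFun q := ⟨(Fin.rev q.1.1, Fin.rev q.1.2), Fin.rev_lt_rev.2 q.2⟩
  left_inv p := by
    apply Subtype.ext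
    apply Prod.ext
    · exact Fin.rev_rev _
    · exact Fin.rev_rev _
  right_inv p := by
    apply Subtype.ext
    apply Prod.ext
    · exact Fin.rev_rev _
    · exact Fin.rev_rev _

theorem wLong_mul {n : ℕ} (A : Matrix (Fin n) (Fin n) ℝ) (i j : Fin n) :
    (wLong n * A) i j = A (Fin.rev i) j := by
  rw [Matrix.mul_apply, Finset.sum_eq_single (Fin.rev i)]
  · unfold wLong
    rw [if_pos rfl, one_mul]
  · intro k _ hk
    unfold wLong
    rw [if_neg hk, zero_mul]
  · intro h; exact absurd (Finset.mem_univ _) h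

theorem mul_wLong {n : ℕ} (A : Matrix (Fin n) (Fin n) ℝ) (i j : Fin n) :
    (A * wLong n) i j = A i (Fin.rev j) := by
  rw [Matrix.mul_apply, Finset.sum_eq_single (Fin.rev j)]
  · unfold wLong
    rw [if_pos (Fin.rev_rev j).symm, mul_one]
  · intro k _ hk
    unfold wLong
    rw [if_neg (fun h => hk (by rw [h, Fin.rev_rev])), mul_zero]
  · intro h; exact absurd (Finset.mem_univ _) h

theorem wLong_sq (n : ℕ) : wLong n * wLong n = 1 := by
  ext i j
  rw [wLong_mul, Matrix.one_apply]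
  unfold wLong
  by_cases h : i = j
  · rw [if_pos h, if_pos (by rw [h, Fin.rev_rev])]
  · rw [if_neg h, if_neg (fun h' => h (by rw [h', Fin.rev_rev]))]

theorem wLong_transpose (n : ℕ) : (wLong n)ᵀ = wLong n := by
  ext i j
  rw [Matrix.transpose_apply]
  unfold wLong
  by_cases h : i = Fin.rev j
  · rw [if_pos h, if_pos (by rw [h, Fin.rev_rev])]
  · rw [if_neg h, if_neg (fun h' => h (by rw [h', Fin.rev_rev]))]

theorem conj_uMat {n : ℕ} (u : UIdx n → ℝ) :
    wLong n * uMat u * wLong n = lM (fun p => u (revE n p)) := by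
  ext i j
  rw [mul_wLong, wLong_mul]
  unfold uMat lM
  by_cases h : j < i
  · rw [dif_pos (Fin.rev_lt_rev.2 h), dif_pos h]
    rfl
  · rw [dif_neg (fun h' => h (Fin.rev_lt_rev.1 h')), dif_neg h]
    by_cases h2 : i = j
    · rw [if_pos h2, if_pos (by rw [h2])]
    · rw [if_neg h2, if_neg (fun h' => h2 (Fin.rev_injective h'))]

theorem dN_exp {N : ℕ} {y : Fin N → ℝ} (hy : ∀ j, 0 < y j) (i : Fin (N + 1)) :
    dN y ((Fin.rev i : Fin (N + 1)) : ℕ) = Real.exp (xOf (fun j => Real.log (y j)) i) := by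
  unfold dN xOf
  rw [Real.exp_sum]
  refine Finset.prod_congr rfl fun j _ => ?_
  have hi := i.2
  have hj := j.2
  have e : ((Fin.rev i : Fin (N + 1)) : ℕ) = N - i := by
    rw [Fin.val_rev]; omega
  rw [e]
  by_cases h : (j : ℕ) < i
  · rw [if_pos h, if_pos (by omega), Real.exp_log (hy j)]
  · rw [if_neg h, if_neg (by omega), Real.exp_zero]

theorem conj_dMat {N : ℕ} {y : Fin N → ℝ} (hy : ∀ j, 0 < y j) :
    wLong (N + 1) * (dMat y * dMat y) * wLong (N + 1) = Dg (xOf (fun j => Real.log (y j))) := by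
  ext i j
  rw [mul_wLong, wLong_mul, dMat_eq, Matrix.diagonal_mul_diagonal]
  unfold Dg
  by_cases h : i = j
  · subst h
    rw [Matrix.diagonal_apply_eq, Matrix.diagonal_apply_eq, dN_exp hy, ← Real.exp_add]
    congr 1
    ring
  · rw [Matrix.diagonal_apply_ne _ h, Matrix.diagonal_apply_ne _ (fun h' => h (Fin.rev_injective h'))]

theorem gram2 {N : ℕ} {y : Fin N → ℝ} (hy : ∀ j, 0 < y j) (u : UIdx (N + 1) → ℝ) :
    (wLong (N + 1) * uMat u * dMat y) * (wLong (N + 1) * uMat u * dMat y)ᵀ =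
      lM (fun p => u (revE (N + 1) p)) * Dg (xOf (fun j => Real.log (y j))) *
        (lM (fun p => u (revE (N + 1) p))).transpose := by
  rw [← conj_uMat, ← conj_dMat hy]
  simp only [Matrix.transpose_mul, wLong_transpose]
  have e3 : (dMat y)ᵀ = dMat y := by rw [dMat_eq, Matrix.diagonal_transpose]
  rw [e3]
  set w := wLong (N + 1)
  set U := uMat u
  set D := dMat y
  have hw : w * w = 1 := wLong_sq (N + 1)
  calc w * U * D * (D * (Uᵀ * w)) = w * U * (D * D) * Uᵀ * w := by simp only [Matrix.mul_assoc]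
    _ = w * U * (w * w) * (D * D) * (w * w) * Uᵀ * w := by rw [hw, Matrix.mul_one, Matrix.mul_one]
    _ = _ := by simp only [Matrix.mul_assoc]

theorem det_lM {n : ℕ} (v : LIdx n → ℝ) : (lM v).det = 1 := by
  rw [Matrix.det_of_lowerTriangular]
  · refine Finset.prod_eq_one fun i _ => ?_
    unfold lM
    rw [dif_neg (lt_irrefl i), if_pos rfl]
  · intro i j hij
    have h : i < j := hij
    unfold lM
    rw [dif_neg (not_lt.2 h.le), if_neg h.ne]

theorem Bm_zero {n : ℕ} (P : Matrix (Fin (n + 1)) (Fin (n + 1)) ℝ) : Bm P 0 = P.det := by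
  unfold Bm
  have h := Matrix.det_submatrix_equiv_self
    (Equiv.subtypeUnivEquiv (p := fun i : Fin (n + 1) => 0 ≤ i) (fun i => Fin.zero_le i)) P
  rw [← h]
  rfl

theorem conj_psi {n : ℕ} (u : UIdx n → ℝ) :
    (starRingEnd ℂ) (psiU u) = ch (fun p => u (revE n p)) := by
  unfold psiU ch
  rw [← Complex.exp_conj]
  congr 1
  rw [map_mul, Complex.conj_ofReal]
  have e1 : (starRingEnd ℂ) (2 * (Real.pi : ℂ) * Complex.I) = -(2 * Real.pi * Complex.I) := by
    rw [map_mul, map_mul, Complex.conj_I, Complex.conj_ofReal, map_ofNat]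
    ring
  rw [e1]
  congr 2
  rw [← Equiv.sum_comp (revE n)]
  refine Finset.sum_congr rfl fun p _ => ?_
  have hp : ((revE n p).1.2 : ℕ) = ((revE n p).1.1 : ℕ) + 1 ↔ (p.1.1 : ℕ) = (p.1.2 : ℕ) + 1 := by
    have h1 : ((revE n p).1.1 : ℕ) = n - (p.1.1 + 1) := Fin.val_rev _
    have h2 : ((revE n p).1.2 : ℕ) = n - (p.1.2 + 1) := Fin.val_rev _
    rw [h1, h2]
    have h3 := p.1.1.2
    have h4 := p.1.2.2
    omega
  by_cases h : (p.1.1 : ℕ) = (p.1.2 : ℕ) + 1
  · rw [if_pos h, if_pos (hp.2 h)]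
  · rw [if_neg h, if_neg (fun h' => h (hp.1 h'))]

theorem integrand (h1 : S_IWA1) {N : ℕ} {α : Fin (N + 1) → ℂ} (hα : ∑ i, α i = 0)
    {y : Fin N → ℝ} (hy : ∀ j, 0 < y j) (u : UIdx (N + 1) → ℝ) :
    jacInt (dMat y) α u = Complex.exp ((α 0 + ((rhoI (0 : Fin (N + 1)) : ℝ) : ℂ)) *
        ((∑ i, xOf (fun j => Real.log (y j)) i : ℝ) : ℂ)) *
      JnI (muOf α) (xOf (fun j => Real.log (y j))) (fun p => u (revE (N + 1) p)) := by
  set x := xOf (fun j => Real.log (y j)) with hx
  set g := wLong (N + 1) * uMat u * dMat y with hg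
  have hgr := gram2 hy u
  rw [← hg, ← hx] at hgr
  have hdet : (g * gᵀ).det = Real.exp (2 * ∑ i, x i) := by
    rw [hgr, Matrix.det_mul, Matrix.det_mul, Matrix.det_transpose, det_lM, one_mul, mul_one]
    unfold Dg
    rw [Matrix.det_diagonal, ← Real.exp_sum, Finset.mul_sum]
  have hu : IsUnit g.det := by
    rw [isUnit_iff_ne_zero]
    intro h0
    rw [Matrix.det_mul, h0, zero_mul] at hdet
    exact (Real.exp_pos _).ne hdet
  have h2 := (h1 N g hu).2.2 α hα
  unfold jacInt
  rw [← hg, h2, conj_psi, Bm_zero, hdet, cpow_pos (Real.exp_pos _), Real.log_exp, hgr]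
  unfold JnI
  rw [mul_assoc]
  congr 2
  push_cast
  ring

theorem t_iwa2 : S_IWA1 → S_IWA2 := by
  intro h1 N α hα y hy
  set x := xOf (fun j => Real.log (y j)) with hx
  have hmp : MeasurePreserving
      (MeasurableEquiv.piCongrLeft (fun _ : LIdx (N + 1) => ℝ) (revE (N + 1)).symm)
      volume volume :=
    volume_measurePreserving_piCongrLeft (fun _ : LIdx (N + 1) => ℝ) (revE (N + 1)).symm
  have happ : ∀ u : UIdx (N + 1) → ℝ,
      MeasurableEquiv.piCongrLeft (fun _ : LIdx (N + 1) => ℝ) (revE (N + 1)).symm u =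
        fun p => u (revE (N + 1) p) := by
    intro u
    funext p
    have h := Equiv.piCongrLeft_apply_apply (fun _ : LIdx (N + 1) => ℝ) (revE (N + 1)).symm u
      (revE (N + 1) p)
    rw [Equiv.symm_apply_apply] at h
    exact h
  have hfun : jacInt (dMat y) α = fun u => Complex.exp ((α 0 + ((rhoI (0 : Fin (N + 1)) : ℝ) : ℂ)) *
        ((∑ i, x i : ℝ) : ℂ)) *
      JnI (muOf α) x
        (MeasurableEquiv.piCongrLeft (fun _ : LIdx (N + 1) => ℝ) (revE (N + 1)).symm u) := by
    funext u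
    rw [happ u]
    exact integrand h1 hα hy u
  constructor
  · intro hint
    rw [hfun]
    exact (hmp.integrable_comp_of_integrable hint).const_mul _
  · rw [hfun, integral_const_mul]
    unfold Jn
    rw [hmp.integral_comp (MeasurableEquiv.measurableEmbedding _)]

end Pool.Agent.W462.WH
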